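import Mathlib

set_option autoImplicit false

/-!
The d-reflection functor preserves arbitrary products of T0 spaces.
-/

universe u v w

namespace Pool.Agent.Results.MP_c8df5e_gt.DReflProd

open Set TopologicalSpace

/-- The specialization order of a topological space: `x` is below `y` iff `x` lies in the
closure of `{y}`. -/
def SpecLE {X : Type u} [TopologicalSpace X] (x y : X) : Prop :=
  x ∈ closure ({y} : Set X)

/-- A set is directed (in the specialization order) if it is nonempty and any two of its
elements have an upper bound in the set. -/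
def IsDir {X : Type u} [TopologicalSpace X] (D : Set X) : Prop :=
  D.Nonempty ∧ ∀ x ∈ D, ∀ y ∈ D, ∃ z ∈ D, SpecLE x z ∧ SpecLE y z

/-- `s` is a supremum (least upper bound) of `D` in the specialization order. -/
def IsSupOf {X : Type u} [TopologicalSpace X] (D : Set X) (s : X) : Prop :=
  (∀ d ∈ D, SpecLE d s) ∧ ∀ b : X, (∀ d ∈ D, SpecLE d b) → SpecLE s b

/-- A d-space (monotone convergence space): a T0 space in which every directed set has a
supremum, and every open set containing the supremum meets the directed set. -/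
structure IsDSpace (X : Type u) [TopologicalSpace X] : Prop where
  t0 : T0Space X
  exists_sup : ∀ D : Set X, IsDir D → ∃ s, IsSupOf D s
  inaccessible : ∀ D : Set X, IsDir D → ∀ s, IsSupOf D s →
    ∀ U : Set X, IsOpen U → s ∈ U → (D ∩ U).Nonempty

/-- A d-reflection of `X`: a continuous map `μ` from `X` to a d-space `Z` through which every
continuous map from `X` to a d-space factors uniquely. -/
structure IsDReflection {X Z : Type u} [TopologicalSpace X] [TopologicalSpace Z]
    (μ : X → Z) : Prop where
  dspace : IsDSpace Z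
  continuous : Continuous μ
  lift : ∀ (Y : Type u) [TopologicalSpace Y], IsDSpace Y → ∀ f : X → Y, Continuous f →
    ∃! g : Z → Y, Continuous g ∧ g ∘ μ = f

/-! ### Directed limits -/

section basic

variable {X : Type u} [TopologicalSpace X] {Y : Type v} [TopologicalSpace Y]

lemma specLE_iff {x y : X} : SpecLE x y ↔ y ⤳ x := specializes_iff_mem_closure.symm

lemma specLE_refl (x : X) : SpecLE x x := subset_closure rfl

lemma SpecLE.trans {x y z : X} (h : SpecLE x y) (h' : SpecLE y z) : SpecLE x z := by
  rw [specLE_iff] at *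
  exact h'.trans h

lemma SpecLE.mem_open {x y : X} (h : SpecLE x y) {U : Set X} (hU : IsOpen U) (hx : x ∈ U) :
    y ∈ U := by
  rw [specLE_iff] at h
  exact h.mem_open hU hx

lemma SpecLE.map {x y : X} (h : SpecLE x y) {f : X → Y} (hf : Continuous f) :
    SpecLE (f x) (f y) := by
  rw [specLE_iff] at *
  exact h.map hf

lemma specLE_inducing {f : X → Y} (hf : Topology.IsInducing f) {x y : X} :
    SpecLE (f x) (f y) ↔ SpecLE x y := by
  rw [specLE_iff, specLE_iff]
  exact hf.specializes_iff

lemma SpecLE.antisymm [T0Space X] {x y : X} (h : SpecLE x y) (h' : SpecLE y x) : x = y := by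
  rw [specLE_iff] at *
  exact (h'.antisymm h).eq

/-- `s` is a limit of the directed set `D` lying above all its elements. -/
def DLim (D : Set X) (s : X) : Prop := (∀ d ∈ D, SpecLE d s) ∧ s ∈ closure D

lemma DLim.isSupOf {D : Set X} {s : X} (h : DLim D s) : IsSupOf D s := by
  refine ⟨h.1, fun b hb => ?_⟩
  have : closure D ⊆ closure {b} := closure_minimal (fun d hd => hb d hd) isClosed_closure
  exact this h.2

lemma IsSupOf.unique [T0Space X] {D : Set X} {s t : X} (h : IsSupOf D s) (h' : IsSupOf D t) :
    s = t :=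
  SpecLE.antisymm (h.2 t h'.1) (h'.2 s h.1)

lemma DLim.unique [T0Space X] {D : Set X} {s t : X} (h : DLim D s) (h' : DLim D t) : s = t :=
  h.isSupOf.unique h'.isSupOf

lemma IsDSpace.dlim (hX : IsDSpace X) {D : Set X} (hD : IsDir D) : ∃ s, DLim D s := by
  obtain ⟨s, hs⟩ := hX.exists_sup D hD
  refine ⟨s, hs.1, ?_⟩
  rw [mem_closure_iff]
  intro U hU hsU
  rw [inter_comm]
  exact hX.inaccessible D hD s hs U hU hsU

lemma isDSpace_of_dlim [T0Space X] (h : ∀ D : Set X, IsDir D → ∃ s, DLim D s) : IsDSpace X := by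
  refine ⟨inferInstance, fun D hD => ?_, fun D hD s hs U hU hsU => ?_⟩
  · obtain ⟨s, hs⟩ := h D hD
    exact ⟨s, hs.isSupOf⟩
  · obtain ⟨t, ht⟩ := h D hD
    have : s = t := hs.unique ht.isSupOf
    subst this
    have := mem_closure_iff.1 ht.2 U hU hsU
    rwa [inter_comm] at this

lemma IsDir.image {D : Set X} (hD : IsDir D) {f : X → Y} (hf : Continuous f) :
    IsDir (f '' D) := by
  refine ⟨hD.1.image f, ?_⟩
  rintro _ ⟨x, hx, rfl⟩ _ ⟨y, hy, rfl⟩
  obtain ⟨z, hz, h1, h2⟩ := hD.2 x hx y hy
  exact ⟨f z, ⟨z, hz, rfl⟩, h1.map hf, h2.map hf⟩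

lemma DLim.image {D : Set X} {s : X} (h : DLim D s) {f : X → Y} (hf : Continuous f) :
    DLim (f '' D) (f s) := by
  refine ⟨?_, ?_⟩
  · rintro _ ⟨d, hd, rfl⟩
    exact (h.1 d hd).map hf
  · exact image_closure_subset_closure_image hf ⟨s, h.2, rfl⟩

lemma dlim_inducing {f : X → Y} (hf : Topology.IsInducing f) {D : Set X} {s : X} :
    DLim (f '' D) (f s) ↔ DLim D s := by
  refine ⟨fun h => ⟨fun d hd => ?_, ?_⟩, fun h => h.image hf.continuous⟩
  · exact (specLE_inducing hf).1 (h.1 _ ⟨d, hd, rfl⟩)
  · rw [hf.closure_eq_preimage_closure_image]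
    exact h.2

lemma isDir_inducing {f : X → Y} (hf : Topology.IsInducing f) {D : Set X}
    (hD : IsDir (f '' D)) : IsDir D := by
  refine ⟨hD.1.of_image, fun x hx y hy => ?_⟩
  obtain ⟨_, ⟨z, hz, rfl⟩, h1, h2⟩ := hD.2 _ ⟨x, hx, rfl⟩ _ ⟨y, hy, rfl⟩
  exact ⟨z, hz, (specLE_inducing hf).1 h1, (specLE_inducing hf).1 h2⟩

/-- A set is d-closed if it contains all directed limits of its directed subsets. -/
def DClosed (A : Set X) : Prop := ∀ D ⊆ A, IsDir D → ∀ s, DLim D s → s ∈ A

lemma DClosed.preimage {A : Set Y} (hA : DClosed A) {f : X → Y} (hf : Continuous f) :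
    DClosed (f ⁻¹' A) := by
  intro D hDA hD s hs
  exact hA (f '' D) (image_subset_iff.2 hDA) (hD.image hf) (f s) (hs.image hf)

lemma dclosed_eq [T0Space Y] {f g : X → Y} (hf : Continuous f) (hg : Continuous g) :
    DClosed {x | f x = g x} := by
  intro D hDA hD s hs
  have h1 := hs.image hf
  have h2 := hs.image hg
  have : f '' D = g '' D := image_congr hDA
  rw [this] at h1
  exact h1.unique h2

/-- The image of a map is d-dense if the only d-closed set containing it is the whole space. -/
def DDense (μ : X → Y) : Prop := ∀ A : Set Y, DClosed A → range μ ⊆ A → A = univ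

lemma dclosed_range [T0Space Y] (hX : IsDSpace X) {f : X → Y} (hf : Topology.IsInducing f) :
    DClosed (range f) := by
  intro D hDA hD s hs
  have hD' : f '' (f ⁻¹' D) = D := image_preimage_eq_of_subset hDA
  have hdir : IsDir (f ⁻¹' D) := isDir_inducing hf (by rwa [hD'])
  obtain ⟨t, ht⟩ := hX.dlim hdir
  have h2 := ht.image hf.continuous
  rw [hD'] at h2
  exact ⟨t, h2.unique hs⟩

lemma isDSpace_subtype [T0Space X] (hX : IsDSpace X) {A : Set X} (hA : DClosed A) :
    IsDSpace A := by
  apply isDSpace_of_dlim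
  intro D hD
  obtain ⟨s, hs⟩ := hX.dlim (hD.image continuous_subtype_val)
  have hsA : s ∈ A := hA _ (by rintro _ ⟨d, _, rfl⟩; exact d.2)
    (hD.image continuous_subtype_val) s hs
  exact ⟨⟨s, hsA⟩, (dlim_inducing (f := Subtype.val) Topology.IsInducing.subtypeVal).1 hs⟩

end basic

/-! ### Products -/

section products

variable {I : Type v} {X : I → Type u} [∀ i, TopologicalSpace (X i)]

lemma specLE_pi {x y : ∀ i, X i} : SpecLE x y ↔ ∀ i, SpecLE (x i) (y i) := by
  simp only [specLE_iff]
  exact specializes_pi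

lemma IsDir.finset {Y : Type u} [TopologicalSpace Y] {D : Set Y} (hD : IsDir D) {J : Type v}
    (F : Finset J) (d : J → Y) (hd : ∀ j ∈ F, d j ∈ D) : ∃ z ∈ D, ∀ j ∈ F, SpecLE (d j) z := by
  classical
  induction F using Finset.induction_on with
  | empty =>
    obtain ⟨z, hz⟩ := hD.1
    exact ⟨z, hz, by simp⟩
  | insert a F _ ih =>
    obtain ⟨z, hz, hzF⟩ := ih (fun j hj => hd j (Finset.mem_insert_of_mem hj))
    obtain ⟨t, ht, h1, h2⟩ := hD.2 z hz (d a) (hd a (Finset.mem_insert_self _ _))
    refine ⟨t, ht, fun j hj => ?_⟩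
    rcases Finset.mem_insert.1 hj with rfl | hj
    · exact h2
    · exact (hzF j hj).trans h1

lemma dlim_pi {D : Set (∀ i, X i)} (hD : IsDir D) {s : ∀ i, X i}
    (h : ∀ i, DLim ((fun x : ∀ i, X i => x i) '' D) (s i)) : DLim D s := by
  classical
  refine ⟨fun d hd => specLE_pi.2 fun i => (h i).1 _ ⟨d, hd, rfl⟩, ?_⟩
  rw [mem_closure_iff]
  intro U hU hsU
  obtain ⟨F, V, hV, hVU⟩ := isOpen_pi_iff.1 hU s hsU
  have hex : ∀ i, i ∈ F → ∃ d ∈ D, d i ∈ V i := by
    intro i hi
    obtain ⟨_, hx, ⟨d, hd, rfl⟩⟩ := mem_closure_iff.1 (h i).2 (V i) (hV i hi).1 (hV i hi).2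
    exact ⟨d, hd, hx⟩
  obtain ⟨d0, hd0⟩ := hD.1
  have : Nonempty (∀ i, X i) := ⟨d0⟩
  choose! d hd hdV using hex
  obtain ⟨z, hz, hzF⟩ := hD.finset F d hd
  refine ⟨z, hVU ?_, hz⟩
  intro i hi
  exact (specLE_pi.1 (hzF i hi) i).mem_open (hV i hi).1 (hdV i hi)

lemma isDSpace_pi (h : ∀ i, IsDSpace (X i)) : IsDSpace (∀ i, X i) := by
  have : ∀ i, T0Space (X i) := fun i => (h i).t0
  apply isDSpace_of_dlim
  intro D hD
  have : ∀ i, ∃ s, DLim ((fun x : ∀ i, X i => x i) '' D) s := fun i =>
    (h i).dlim (hD.image (continuous_apply i))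
  choose s hs using this
  exact ⟨s, dlim_pi hD hs⟩

lemma isDSpace_Prop : IsDSpace Prop := by
  apply isDSpace_of_dlim
  intro D hD
  by_cases h : True ∈ D
  · refine ⟨True, fun d _ => ?_, subset_closure h⟩
    rw [specLE_iff, specializes_iff_forall_open]
    intro U hU hd
    by_cases hd' : d
    · have : d = True := by simpa using hd'
      rwa [this] at hd
    · have : d = False := by simpa using hd'
      rw [this] at hd
      have : U = univ := by
        have := mem_nhds_iff.2 ⟨U, Subset.rfl, hU, hd⟩
        rw [nhds_false] at this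
        simpa using this
      rw [this]
      trivial
  · obtain ⟨d, hd⟩ := hD.1
    have hF : ∀ e ∈ D, e = False := by
      intro e he
      by_contra hne
      apply h
      have : e = True := by
        by_contra hne'
        apply hne
        simpa using hne'
      rwa [this] at he
    refine ⟨False, fun e he => ?_, subset_closure ?_⟩
    · rw [hF e he]
      exact specLE_refl _
    · rw [← hF d hd]
      exact hd

end products

/-! ### Characterization of d-reflections -/

section char

variable {X Z : Type u} [TopologicalSpace X] [TopologicalSpace Z]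

lemma isDReflection_of_dense {μ : X → Z} (hZ : IsDSpace Z) (hμ : Topology.IsInducing μ)
    (hd : DDense μ) : IsDReflection μ := by
  refine ⟨hZ, hμ.continuous, fun Y _ hY f hf => ?_⟩
  have := hY.t0
  have hV : ∀ U : Opens Y, ∃ V : Set Z, IsOpen V ∧ μ ⁻¹' V = f ⁻¹' (U : Set Y) := fun U =>
    hμ.isOpen_iff.1 (U.2.preimage hf)
  choose V hVo hV using hV
  let F : Z → Opens Y → Prop := fun z U => z ∈ V U
  have hF : Continuous F := continuous_pi fun U => isOpen_iff_continuous_mem.1 (hVo U)
  have hι := productOfMemOpens_isInducing Y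
  have hinj := productOfMemOpens_injective Y
  have hFμ : ∀ x, F (μ x) = productOfMemOpens Y (f x) := by
    intro x
    funext U
    have : (x ∈ μ ⁻¹' V U) = (x ∈ f ⁻¹' (U : Set Y)) := by rw [hV U]
    exact this
  have hA : F ⁻¹' (range (productOfMemOpens Y)) = univ := by
    apply hd
    · exact (dclosed_range hY hι).preimage hF
    · rintro _ ⟨x, rfl⟩
      exact ⟨f x, (hFμ x).symm⟩
  have hg : ∀ z, ∃ y, productOfMemOpens Y y = F z := fun z => by
    have : z ∈ F ⁻¹' (range (productOfMemOpens Y)) := by rw [hA]; trivial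
    exact this
  choose g hg using hg
  refine ⟨g, ⟨?_, ?_⟩, ?_⟩
  · rw [hι.continuous_iff]
    convert hF using 1
    funext z
    exact hg z
  · funext x
    apply hinj
    rw [Function.comp_apply, hg, hFμ]
  · rintro g' ⟨hg'c, hg'⟩
    have hgc : Continuous g := by
      rw [hι.continuous_iff]
      convert hF using 1
      funext z
      exact hg z
    have hE : {z | g' z = g z} = univ := by
      apply hd _ (dclosed_eq hg'c hgc)
      rintro _ ⟨x, rfl⟩
      apply hinj
      rw [hg, hFμ, ← hg']
      rfl
    funext z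
    have : z ∈ {z | g' z = g z} := by rw [hE]; trivial
    exact this

lemma isDSpace_power (X : Type u) [TopologicalSpace X] : IsDSpace (Opens X → Prop) :=
  isDSpace_pi (X := fun _ : Opens X => Prop) fun _ => isDSpace_Prop

lemma IsDReflection.isInducing {μ : X → Z} (h : IsDReflection μ) : Topology.IsInducing μ := by
  have hι := productOfMemOpens_isInducing X
  obtain ⟨g, ⟨hg, hgμ⟩, _⟩ := h.lift (Opens X → Prop) (isDSpace_power X) (productOfMemOpens X)
    hι.continuous
  exact Topology.IsInducing.of_comp h.continuous hg (by rw [hgμ]; exact hι)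

lemma IsDReflection.ddense {μ : X → Z} (h : IsDReflection μ) : DDense μ := by
  intro A hA hr
  have := h.dspace.t0
  obtain ⟨g, ⟨hg, hgμ⟩, _⟩ := h.lift A (isDSpace_subtype h.dspace hA)
    (fun x => ⟨μ x, hr ⟨x, rfl⟩⟩) (h.continuous.subtype_mk _)
  obtain ⟨k, _, hk⟩ := h.lift Z h.dspace μ h.continuous
  have h1 : (fun z => (g z : Z)) = k := by
    apply hk
    refine ⟨continuous_subtype_val.comp hg, ?_⟩
    funext x
    have := congrFun hgμ x
    simp only [Function.comp_apply] at this ⊢
    rw [this]
  have h2 : id = k := hk _ ⟨continuous_id, rfl⟩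
  rw [eq_univ_iff_forall]
  intro z
  have : (g z : Z) = z := by
    have := congrFun (h1.trans h2.symm) z
    simpa using this
  rw [← this]
  exact (g z).2

end char

/-! ### The product theorem -/

section main

variable {I : Type v} {X Z : I → Type u} [∀ i, TopologicalSpace (X i)]
  [∀ i, TopologicalSpace (Z i)]

lemma ddense_below {X Z : Type u} [TopologicalSpace X] [TopologicalSpace Z] {μ : X → Z}
    (h : DDense μ) (z : Z) : ∃ x, SpecLE (μ x) z := by
  have : {z : Z | ∃ x, SpecLE (μ x) z} = univ := by
    apply h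
    · intro D hDA hD s hs
      obtain ⟨d, hd⟩ := hD.1
      obtain ⟨x, hx⟩ := hDA hd
      exact ⟨x, hx.trans (hs.1 d hd)⟩
    · rintro _ ⟨x, rfl⟩
      exact ⟨x, specLE_refl _⟩
  have hz : z ∈ {z : Z | ∃ x, SpecLE (μ x) z} := by rw [this]; trivial
  exact hz

lemma ddense_pi {μ : ∀ i, X i → Z i} (h : ∀ i, DDense (μ i)) :
    DDense (fun (x : ∀ i, X i) (i : I) => μ i (x i)) := by
  classical
  intro A hA hr
  have key : ∀ F : Finset I, ∀ (z : ∀ i, Z i) (x : ∀ i, X i), (∀ i, i ∉ F → z i = μ i (x i)) →
      z ∈ A := by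
    intro F
    induction F using Finset.induction_on with
    | empty =>
      intro z x hz
      apply hr
      exact ⟨x, funext fun i => (hz i (by simp)).symm⟩
    | insert j F hj ih =>
      intro z x hz
      have hB : (fun w : Z j => Function.update z j w) ⁻¹' A = univ := by
        apply h j
        · exact hA.preimage (continuous_const.update j continuous_id)
        · rintro _ ⟨x', rfl⟩
          apply ih _ (Function.update x j x')
          intro i hi
          by_cases hij : i = j
          · subst hij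
            simp
          · change Function.update z j (μ j x') i = μ i (Function.update x j x' i)
            rw [Function.update_of_ne hij, Function.update_of_ne hij]
            apply hz
            simp [hij, hi]
      have : z j ∈ (fun w : Z j => Function.update z j w) ⁻¹' A := by rw [hB]; trivial
      simpa using this
  rw [eq_univ_iff_forall]
  intro y
  choose x hx using fun i => ddense_below (h i) (y i)
  let zF : Finset I → ∀ i, Z i := fun F i => if i ∈ F then y i else μ i (x i)
  have hmono : ∀ F G : Finset I, F ⊆ G → SpecLE (zF F) (zF G) := by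
    intro F G hFG
    rw [specLE_pi]
    intro i
    by_cases hF : i ∈ F
    · have hG := hFG hF
      simp only [zF, hF, hG, if_true]
      exact specLE_refl _
    · by_cases hG : i ∈ G
      · simp only [zF, hF, hG, if_true, if_false]
        exact hx i
      · simp only [zF, hF, hG, if_false]
        exact specLE_refl _
  apply hA (range zF)
  · rintro _ ⟨F, rfl⟩
    apply key F _ x
    intro i hi
    simp [zF, hi]
  · refine ⟨⟨_, ⟨∅, rfl⟩⟩, ?_⟩
    rintro _ ⟨F, rfl⟩ _ ⟨G, rfl⟩
    exact ⟨zF (F ∪ G), ⟨_, rfl⟩, hmono _ _ Finset.subset_union_left,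
      hmono _ _ Finset.subset_union_right⟩
  · refine ⟨?_, ?_⟩
    · rintro _ ⟨F, rfl⟩
      rw [specLE_pi]
      intro i
      by_cases hF : i ∈ F
      · simp only [zF, hF, if_true]
        exact specLE_refl _
      · simp only [zF, hF, if_false]
        exact hx i
    · rw [mem_closure_iff]
      intro U hU hyU
      obtain ⟨F, V, hV, hVU⟩ := isOpen_pi_iff.1 hU y hyU
      refine ⟨zF F, hVU ?_, ⟨F, rfl⟩⟩
      intro i hi
      have hi' : i ∈ F := hi
      simp only [zF, hi', if_true]
      exact (hV i hi').2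

theorem isDReflection_pi {μ : ∀ i, X i → Z i} (h : ∀ i, IsDReflection (μ i)) :
    IsDReflection (fun (x : ∀ i, X i) (i : I) => μ i (x i)) := by
  apply isDReflection_of_dense
  · exact isDSpace_pi fun i => (h i).dspace
  · exact Topology.IsInducing.piMap fun i => (h i).isInducing
  · exact ddense_pi fun i => (h i).ddense

end main

theorem isDReflection_unique {X Z W : Type u} [TopologicalSpace X] [TopologicalSpace Z]
    [TopologicalSpace W] {μ : X → Z} {ν : X → W} (hμ : IsDReflection μ) (hν : IsDReflection ν) :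
    ∃ e : W ≃ₜ Z, e ∘ ν = μ := by
  obtain ⟨g, ⟨hg, hgμ⟩, _⟩ := hμ.lift W hν.dspace ν hν.continuous
  obtain ⟨k, ⟨hk, hkν⟩, _⟩ := hν.lift Z hμ.dspace μ hμ.continuous
  have h1 : k ∘ g = id := by
    obtain ⟨m, _, hm⟩ := hμ.lift Z hμ.dspace μ hμ.continuous
    rw [hm (k ∘ g) ⟨hk.comp hg, by rw [Function.comp_assoc, hgμ, hkν]⟩,
      ← hm id ⟨continuous_id, rfl⟩]
  have h2 : g ∘ k = id := by
    obtain ⟨m, _, hm⟩ := hν.lift W hν.dspace ν hν.continuous
    rw [hm (g ∘ k) ⟨hg.comp hk, by rw [Function.comp_assoc, hkν, hgμ]⟩,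
      ← hm id ⟨continuous_id, rfl⟩]
  exact ⟨{ toFun := k, invFun := g, left_inv := congrFun h2, right_inv := congrFun h1,
           continuous_toFun := hk, continuous_invFun := hg }, hkν⟩

theorem exists_isDReflection (X : Type u) [TopologicalSpace X] :
    ∃ (Z : Type u) (_ : TopologicalSpace Z) (μ : X → Z), IsDReflection μ := by
  let Q := Opens X → Prop
  have hQ : IsDSpace Q := isDSpace_power X
  have : T0Space Q := hQ.t0
  let e : X → Q := productOfMemOpens X
  have he : Topology.IsInducing e := productOfMemOpens_isInducing X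
  let A : Set Q := ⋂₀ {B | DClosed B ∧ range e ⊆ B}
  have hA : DClosed A := by
    intro D hDA hD s hs B hB
    exact hB.1 D (hDA.trans (sInter_subset_of_mem hB)) hD s hs
  have heA : ∀ x, e x ∈ A := by
    intro x B hB
    exact hB.2 ⟨x, rfl⟩
  let μ : X → A := fun x => ⟨e x, heA x⟩
  have hμ : Topology.IsInducing μ := by
    apply Topology.IsInducing.of_comp (g := Subtype.val)
    · exact he.continuous.subtype_mk _
    · exact continuous_subtype_val
    · exact he
  refine ⟨A, inferInstance, μ, isDReflection_of_dense (isDSpace_subtype hQ hA) hμ ?_⟩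
  intro B hB hr
  have hB' : DClosed (Subtype.val '' B : Set Q) := by
    intro D hDB hD s hs
    have hDA : D ⊆ A := by
      intro d hd
      obtain ⟨b, _, rfl⟩ := hDB hd
      exact b.2
    have hsA : s ∈ A := hA D hDA hD s hs
    have hD' : Subtype.val '' (Subtype.val ⁻¹' D : Set A) = D := by
      rw [Subtype.image_preimage_val, inter_eq_self_of_subset_right hDA]
    refine ⟨⟨s, hsA⟩, ?_, rfl⟩
    apply hB (Subtype.val ⁻¹' D)
    · intro a ha
      obtain ⟨b, hb, hba⟩ := hDB ha
      have : b = a := Subtype.ext hba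
      rwa [← this]
    · exact isDir_inducing Topology.IsInducing.subtypeVal (by rwa [hD'])
    · apply (dlim_inducing (f := Subtype.val) Topology.IsInducing.subtypeVal).1
      rw [hD']
      exact hs
  rw [eq_univ_iff_forall]
  intro a
  have : (a : Q) ∈ (Subtype.val '' B : Set Q) := by
    apply a.2
    refine ⟨hB', ?_⟩
    rintro _ ⟨x, rfl⟩
    exact ⟨μ x, hr ⟨x, rfl⟩, rfl⟩
  obtain ⟨b, hb, hba⟩ := this
  have : b = a := Subtype.ext hba
  rwa [← this]

/-- **The d-reflection functor preserves arbitrary products.**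
For every family `X i` (`i : I`, `I` an arbitrary index type) of T0 spaces:
(1) every `X i` has a d-reflection;
(2) for all d-reflections `μ i : X i → Z i`, the product map `∏ X i → ∏ Z i` is a d-reflection
    of the product space `∏ X i`;
(3) if `ν : ∏ X i → W` is any d-reflection of the product, then `W` is homeomorphic to
    `∏ Z i`, by a homeomorphism which carries `ν` to the product map. -/
theorem result (I : Type v) (X : I → Type u) [∀ i, TopologicalSpace (X i)]
    [∀ i, T0Space (X i)] :
    (∀ i, ∃ (Z : Type u) (_ : TopologicalSpace Z) (μ : X i → Z), IsDReflection μ) ∧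
    (∀ (Z : I → Type u) [∀ i, TopologicalSpace (Z i)] (μ : ∀ i, X i → Z i),
      (∀ i, IsDReflection (μ i)) →
        IsDReflection (fun (x : ∀ i, X i) (i : I) => μ i (x i)) ∧
        ∀ (W : Type (max u v)) [TopologicalSpace W] (ν : (∀ i, X i) → W), IsDReflection ν →
          ∃ e : W ≃ₜ (∀ i, Z i), ∀ x i, e (ν x) i = μ i (x i)) := by
  refine ⟨fun i => exists_isDReflection (X i), fun Z _ μ h => ⟨isDReflection_pi h, ?_⟩⟩
  intro W _ ν hν
  obtain ⟨e, he⟩ := isDReflection_unique (isDReflection_pi h) hν
  exact ⟨e, fun x i => congrFun (congrFun he x) i⟩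

end Pool.Agent.Results.MP_c8df5e_gt.DReflProd
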